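import Mathlib

/-!
# Tukey-top ultrafilters and the principle diamond-minus: definitions and countable conditions
-/

namespace Pool.Agent.H282R3.TT

open Set Filter

/-- The natural number `m`, as the set `{0, ..., m - 1}`. -/
def seg (m : ℕ) : Set ℕ := {x | x < m}

/-- An ultrafilter `U` on `ℕ` is Tukey-top: there are `𝔠` many sets in `U`, such that the
intersection of any countably infinite subfamily is not in `U`. -/
def TukeyTop (U : Ultrafilter ℕ) : Prop :=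
  ∃ (ι : Type) (A : ι → Set ℕ), Cardinal.mk ι = Cardinal.continuum ∧ (∀ i, A i ∈ U) ∧
    ∀ I : Set ι, I.Infinite → I.Countable → (⋂ i ∈ I, A i) ∉ U

/-- `f`, `p` (for `π`), `a` (for the sequence of the `𝒜 n`) and `T` witness the principle
diamond-minus for the ultrafilter `U`. -/
def Witness (U : Ultrafilter ℕ) (f p : ℕ → ℕ) (a : ℕ → Set (Set ℕ)) (T : Set (Set ℕ)) : Prop :=
  Cardinal.mk T = Cardinal.continuum ∧
  (∀ n, (∀ A ∈ a n, A ⊆ seg (f n)) ∧ (a n).encard ≤ p n) ∧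
  (∀ X ∈ T, {n | X ∩ seg (f n) ∈ a n} ∈ U) ∧
  (∀ g : ℕ → ℕ, {n | g (p n) < f n} ∈ U)

/-- The principle diamond-minus for the ultrafilter `U`. -/
def DiamondMinus (U : Ultrafilter ℕ) : Prop :=
  ∃ (f p : ℕ → ℕ) (a : ℕ → Set (Set ℕ)) (T : Set (Set ℕ)), Witness U f p a T

/-! ### Full sets -/

/-- All finite subfamilies of `C \ E` meet `G` in an infinite set. -/
def Works (C E : Set (Set ℕ)) (G : Set ℕ) : Prop :=
  ∀ t : Finset (Set ℕ), (↑t : Set (Set ℕ)) ⊆ C \ E → (G ∩ ⋂ c ∈ t, c).Infinite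

def Full (C : Set (Set ℕ)) (G : Set ℕ) : Prop := ∃ E : Set (Set ℕ), E.Finite ∧ Works C E G

theorem Works.mono {C E : Set (Set ℕ)} {G H : Set ℕ} (h : Works C E G) (hGH : G ⊆ H) :
    Works C E H :=
  fun t ht => (h t ht).mono (inter_subset_inter_left _ hGH)

theorem Full.mono {C : Set (Set ℕ)} {G H : Set ℕ} (h : Full C G) (hGH : G ⊆ H) :
    Full C H := by
  obtain ⟨E, hE, h⟩ := h
  exact ⟨E, hE, h.mono hGH⟩

theorem Works.union {C E : Set (Set ℕ)} {A B : Set ℕ} (h : Works C E (A ∪ B)) :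
    Works C E A ∨ Works C E B := by
  classical
  by_contra hc
  simp only [Works, not_or, not_forall, Set.not_infinite] at hc
  obtain ⟨⟨t, ht, h1⟩, t', ht', h2⟩ := hc
  refine h (t ∪ t') ?_ ((h1.union h2).subset ?_)
  · rw [Finset.coe_union]
    exact union_subset ht ht'
  · rintro x ⟨hx, hx'⟩
    simp only [Finset.mem_union, mem_iInter] at hx'
    rcases hx with hx | hx
    · exact Or.inl ⟨hx, by simp only [mem_iInter]; exact fun c hc => hx' c (Or.inl hc)⟩
    · exact Or.inr ⟨hx, by simp only [mem_iInter]; exact fun c hc => hx' c (Or.inr hc)⟩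

/-- If `B` is not full then it can be removed. -/
theorem Works.remove {C E : Set (Set ℕ)} {A B : Set ℕ} (h : Works C E A) (hE : E.Finite)
    (hB : ¬ Full C (A ∩ B)) : Works C E (A ∩ Bᶜ) := by
  have h1 : Works C E (A ∩ B ∪ A ∩ Bᶜ) := by
    rw [inter_union_compl]; exact h
  rcases h1.union with h2 | h2
  · exact absurd ⟨E, hE, h2⟩ hB
  · exact h2

theorem Works.infinite {C E : Set (Set ℕ)} {A : Set ℕ} (h : Works C E A) : A.Infinite := by
  have := h ∅ (by simp)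
  simpa using this

/-! ### Conditions -/

/-- A condition: countably many sets `C` which are to be outside of the ultrafilter and are to
witness that it is Tukey-top, and countably many sets `Y` which are in the ultrafilter. -/
structure Cond where
  C : Set (Set ℕ)
  Y : Set (Set ℕ)
  hC : C.Countable
  hY : Y.Countable
  univ_mem : univ ∈ Y
  inter_mem : ∀ A ∈ Y, ∀ B ∈ Y, A ∩ B ∈ Y
  full : ∀ A ∈ Y, Full C A
  compl : ∀ A ∈ C, Aᶜ ∈ Y

instance : Preorder Cond where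
  le p q := p.C ⊆ q.C ∧ p.Y ⊆ q.Y ∧ ∀ A ∈ p.Y, ∀ E, Works p.C E A → Works q.C E A
  le_refl p := ⟨Subset.rfl, Subset.rfl, fun _ _ _ h => h⟩
  le_trans p q r h h' := ⟨h.1.trans h'.1, h.2.1.trans h'.2.1,
    fun A hA E hE => h'.2.2 A (h.2.1 hA) E (h.2.2 A hA E hE)⟩

theorem Cond.le_def {p q : Cond} :
    p ≤ q ↔ p.C ⊆ q.C ∧ p.Y ⊆ q.Y ∧ ∀ A ∈ p.Y, ∀ E, Works p.C E A → Works q.C E A := Iff.rfl

/-- Adding a set to the ultrafilter. -/
theorem Cond.add (p : Cond) (S : Set ℕ) (h : ∀ A ∈ p.Y, Full p.C (A ∩ S)) :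
    ∃ q, p ≤ q ∧ S ∈ q.Y := by
  refine ⟨⟨p.C, p.Y ∪ (fun A => A ∩ S) '' p.Y, p.hC, p.hY.union (p.hY.image _),
    Or.inl p.univ_mem, ?_, ?_, fun A hA => Or.inl (p.compl A hA)⟩,
    ⟨Subset.rfl, subset_union_left, fun _ _ _ h => h⟩, Or.inr ⟨univ, p.univ_mem, by simp⟩⟩
  · rintro A (hA | ⟨A, hA, rfl⟩) B (hB | ⟨B, hB, rfl⟩)
    · exact Or.inl (p.inter_mem A hA B hB)
    · exact Or.inr ⟨A ∩ B, p.inter_mem A hA B hB, by simp only [inter_assoc]⟩
    · exact Or.inr ⟨A ∩ B, p.inter_mem A hA B hB, by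
        simp only [inter_assoc, inter_comm B S]⟩
    · exact Or.inr ⟨A ∩ B, p.inter_mem A hA B hB, by
        ext x; simp only [mem_inter_iff]; tauto⟩
  · rintro A (hA | ⟨A, hA, rfl⟩)
    · exact p.full A hA
    · exact h A hA

/-- Deciding a set. -/
theorem Cond.decide (p : Cond) (S : Set ℕ) : ∃ q, p ≤ q ∧ (S ∈ q.Y ∨ Sᶜ ∈ q.Y) := by
  by_cases h : ∀ A ∈ p.Y, Full p.C (A ∩ S)
  · obtain ⟨q, hq, h1⟩ := p.add S h
    exact ⟨q, hq, Or.inl h1⟩
  · push Not at h
    obtain ⟨B, hB, h⟩ := h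
    obtain ⟨q, hq, h1⟩ := p.add Sᶜ (by
      intro A hA
      obtain ⟨E, hE, h1⟩ := p.full _ (p.inter_mem A hA B hB)
      have h2 : ¬ Full p.C (A ∩ B ∩ S) :=
        fun h3 => h (h3.mono (by rw [inter_assoc]; exact inter_subset_right))
      exact ⟨E, hE, (h1.remove hE h2).mono (by
        rw [inter_assoc]
        exact inter_subset_inter_right _ inter_subset_right)⟩)
    exact ⟨q, hq, Or.inr h1⟩

/-- Splitting countably many infinite sets. -/
theorem exists_split (F : Set (Set ℕ)) (hF : F.Countable) (hinf : ∀ A ∈ F, A.Infinite) :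
    ∃ C : Set ℕ, ∀ A ∈ F, (A ∩ C).Infinite ∧ (A ∩ Cᶜ).Infinite := by
  rcases F.eq_empty_or_nonempty with rfl | hne
  · exact ⟨∅, fun A hA => absurd hA (notMem_empty A)⟩
  obtain ⟨e, rfl⟩ := hF.exists_eq_range hne
  obtain ⟨g, hg, hg'⟩ := extraction_forall_of_frequently
    (P := fun n k => k ∈ e (Nat.unpair n).1)
    (fun n => Nat.frequently_atTop_iff_infinite.2 (hinf _ ⟨_, rfl⟩))
  refine ⟨{x | ∃ n, g n = x ∧ Even (Nat.unpair n).2}, ?_⟩
  rintro _ ⟨i, rfl⟩
  constructor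
  · refine infinite_of_injective_forall_mem (f := fun j => g (Nat.pair i (2 * j))) ?_ ?_
    · intro j j' h
      have h1 := hg.injective h
      rw [Nat.pair_eq_pair] at h1
      omega
    · intro j
      refine ⟨?_, _, rfl, ?_⟩
      · have := hg' (Nat.pair i (2 * j))
        simpa using this
      · simp
  · refine infinite_of_injective_forall_mem (f := fun j => g (Nat.pair i (2 * j + 1))) ?_ ?_
    · intro j j' h
      have h1 := hg.injective h
      rw [Nat.pair_eq_pair] at h1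
      omega
    · intro j
      refine ⟨?_, ?_⟩
      · have := hg' (Nat.pair i (2 * j + 1))
        simpa using this
      · rintro ⟨n, hn, h1⟩
        have h2 := hg.injective hn
        subst h2
        rw [Nat.unpair_pair] at h1
        exact Nat.not_even_iff_odd.2 (odd_two_mul_add_one j) h1

theorem countable_finsets {C : Set (Set ℕ)} (hC : C.Countable) :
    {t : Finset (Set ℕ) | (↑t : Set (Set ℕ)) ⊆ C}.Countable := by
  refine ((countable_ofPred_finite_subset hC).preimage_of_injOn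
    (f := fun t : Finset (Set ℕ) => (↑t : Set (Set ℕ))) Finset.coe_injective.injOn).mono ?_
  intro t ht
  exact ⟨t.finite_toSet, ht⟩

/-- Adding a new set to `C`. -/
theorem Cond.addC (p : Cond) (D : ℕ → Set ℕ) : ∃ q, p ≤ q ∧ ∃ A ∈ q.C, ∀ n, D n ≠ A := by
  classical
  let F : Set (Set ℕ) := {A | A.Infinite ∧ (A ∈ range D ∨ A ∈
    (fun x : Set ℕ × Finset (Set ℕ) => x.1 ∩ ⋂ c ∈ x.2, c) ''
      (p.Y ×ˢ {t : Finset (Set ℕ) | (↑t : Set (Set ℕ)) ⊆ p.C}))}
  have hF : F.Countable := by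
    have h1 : (range D ∪ (fun x : Set ℕ × Finset (Set ℕ) => x.1 ∩ ⋂ c ∈ x.2, c) ''
      (p.Y ×ˢ {t : Finset (Set ℕ) | (↑t : Set (Set ℕ)) ⊆ p.C})).Countable := by
      refine (countable_range _).union (Countable.image (p.hY.prod ?_) _)
      exact countable_finsets p.hC
    exact h1.mono fun A hA => hA.2
  obtain ⟨C, hC⟩ := exists_split F hF (fun A hA => hA.1)
  have hsplit : ∀ A ∈ p.Y, ∀ t : Finset (Set ℕ), (↑t : Set (Set ℕ)) ⊆ p.C →
      (A ∩ ⋂ c ∈ t, c).Infinite →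
      ((A ∩ ⋂ c ∈ t, c) ∩ C).Infinite ∧ ((A ∩ ⋂ c ∈ t, c) ∩ Cᶜ).Infinite :=
    fun A hA t ht h => hC _ ⟨h, Or.inr ⟨(A, t), ⟨hA, ht⟩, rfl⟩⟩
  have hworks : ∀ A ∈ p.Y, ∀ E, Works p.C E A → Works (insert C p.C) E A := by
    intro A hA E hE t ht
    have h1 : (↑(t.erase C) : Set (Set ℕ)) ⊆ p.C \ E := by
      intro c hc
      rw [Finset.mem_coe, Finset.mem_erase] at hc
      obtain ⟨h2, h3⟩ := ht (Finset.mem_coe.2 hc.2)
      exact ⟨h2.resolve_left hc.1, h3⟩
    refine (hsplit A hA _ (h1.trans sdiff_subset) (hE _ h1)).1.mono ?_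
    rintro x ⟨⟨hx, hx'⟩, hx''⟩
    refine ⟨hx, ?_⟩
    simp only [mem_iInter, Finset.mem_erase] at hx' ⊢
    intro c hc
    by_cases h : c = C
    · rw [h]; exact hx''
    · exact hx' c ⟨h, hc⟩
  refine ⟨⟨insert C p.C, p.Y ∪ (fun A => A ∩ Cᶜ) '' p.Y, p.hC.insert _,
    p.hY.union (p.hY.image _), Or.inl p.univ_mem, ?_, ?_, ?_⟩,
    ⟨subset_insert _ _, subset_union_left, hworks⟩, C, mem_insert _ _, ?_⟩
  · rintro A (hA | ⟨A, hA, rfl⟩) B (hB | ⟨B, hB, rfl⟩)
    · exact Or.inl (p.inter_mem A hA B hB)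
    · exact Or.inr ⟨A ∩ B, p.inter_mem A hA B hB, by simp only [inter_assoc]⟩
    · exact Or.inr ⟨A ∩ B, p.inter_mem A hA B hB, by
        simp only [inter_assoc, inter_comm B Cᶜ]⟩
    · exact Or.inr ⟨A ∩ B, p.inter_mem A hA B hB, by
        ext x; simp only [mem_inter_iff]; tauto⟩
  · rintro A (hA | ⟨A, hA, rfl⟩)
    · obtain ⟨E, hE, h⟩ := p.full A hA
      exact ⟨E, hE, hworks A hA E h⟩
    · obtain ⟨E, hE, h⟩ := p.full A hA
      refine ⟨insert C E, hE.insert _, fun t ht => ?_⟩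
      have h1 : (↑t : Set (Set ℕ)) ⊆ p.C \ E := by
        intro c hc
        obtain ⟨h2, h3⟩ := ht hc
        simp only [mem_insert_iff, not_or] at h3
        exact ⟨h2.resolve_left h3.1, h3.2⟩
      refine (hsplit A hA _ (h1.trans sdiff_subset) (h _ h1)).2.mono ?_
      rintro x ⟨⟨hx, hx'⟩, hx''⟩
      exact ⟨⟨hx, hx''⟩, hx'⟩
  · rintro A (rfl | hA)
    · exact Or.inr ⟨univ, p.univ_mem, by simp⟩
    · exact Or.inl (p.compl A hA)
  · intro n hn
    by_cases h : (D n).Infinite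
    · have := (hC (D n) ⟨h, Or.inl ⟨n, rfl⟩⟩).2
      rw [hn, inter_compl_self] at this
      exact this finite_empty
    · have h1 := (hsplit univ p.univ_mem ∅ (by simp) (by simpa using infinite_univ)).1
      rw [hn] at h
      apply h
      simpa using h1

/-- Upper bounds of countable chains. -/
theorem Cond.chain (G : Set Cond) (hG : G.Countable) (hc : IsChain (· ≤ ·) G) :
    ∃ q : Cond, ∀ p ∈ G, p ≤ q := by
  rcases G.eq_empty_or_nonempty with rfl | ⟨p₀, hp₀⟩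
  · refine ⟨⟨∅, {univ}, countable_empty, countable_singleton _, rfl, ?_, ?_, ?_⟩, ?_⟩
    · rintro A rfl B rfl
      simp
    · rintro A rfl
      refine ⟨∅, finite_empty, fun t ht => ?_⟩
      have : t = ∅ := by
        rw [← Finset.coe_eq_empty, eq_empty_iff_forall_notMem]
        exact fun x hx => (ht hx).1
      rw [this]
      simpa using infinite_univ
    · intro A hA
      exact absurd hA (notMem_empty A)
    · intro p hp
      exact absurd hp (notMem_empty p)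
  have hdir : ∀ p ∈ G, ∀ t : Finset (Set ℕ), (↑t : Set (Set ℕ)) ⊆ ⋃ q ∈ G, q.C →
      ∃ r ∈ G, p ≤ r ∧ (↑t : Set (Set ℕ)) ⊆ r.C := by
    classical
    intro p hp t
    induction t using Finset.induction_on with
    | empty => exact fun _ => ⟨p, hp, le_rfl, by simp⟩
    | insert c t hct ih =>
      intro ht
      rw [Finset.coe_insert, insert_subset_iff] at ht
      obtain ⟨r, hr, hpr, htr⟩ := ih ht.2
      obtain ⟨q, hq, hcq⟩ := mem_iUnion₂.1 ht.1
      rcases hc.total hr hq with h | h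
      · exact ⟨q, hq, hpr.trans h, by
          rw [Finset.coe_insert, insert_subset_iff]; exact ⟨hcq, htr.trans h.1⟩⟩
      · exact ⟨r, hr, hpr, by
          rw [Finset.coe_insert, insert_subset_iff]; exact ⟨h.1 hcq, htr⟩⟩
  have hworks : ∀ p ∈ G, ∀ A ∈ p.Y, ∀ E, Works p.C E A → Works (⋃ q ∈ G, q.C) E A := by
    intro p hp A hA E hE t ht
    obtain ⟨r, hr, hpr, htr⟩ := hdir p hp t (fun c hc => (ht hc).1)
    exact hpr.2.2 A hA E hE t (fun c hc => ⟨htr hc, (ht hc).2⟩)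
  refine ⟨⟨⋃ q ∈ G, q.C, ⋃ q ∈ G, q.Y, hG.biUnion fun q _ => q.hC, hG.biUnion fun q _ => q.hY,
    mem_iUnion₂.2 ⟨p₀, hp₀, p₀.univ_mem⟩, ?_, ?_, ?_⟩, ?_⟩
  · intro A hA B hB
    obtain ⟨p, hp, hA⟩ := mem_iUnion₂.1 hA
    obtain ⟨q, hq, hB⟩ := mem_iUnion₂.1 hB
    rcases hc.total hp hq with h | h
    · exact mem_iUnion₂.2 ⟨q, hq, q.inter_mem A (h.2.1 hA) B hB⟩
    · exact mem_iUnion₂.2 ⟨p, hp, p.inter_mem A hA B (h.2.1 hB)⟩
  · intro A hA
    obtain ⟨p, hp, hA⟩ := mem_iUnion₂.1 hA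
    obtain ⟨E, hE, h⟩ := p.full A hA
    exact ⟨E, hE, hworks p hp A hA E h⟩
  · intro A hA
    obtain ⟨p, hp, hA⟩ := mem_iUnion₂.1 hA
    exact mem_iUnion₂.2 ⟨p, hp, p.compl A hA⟩
  · intro p hp
    refine ⟨fun A hA => mem_iUnion₂.2 ⟨p, hp, hA⟩, fun A hA => mem_iUnion₂.2 ⟨p, hp, hA⟩,
      hworks p hp⟩

end Pool.Agent.H282R3.TT
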