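import Pool.Agent.H282R3.TT.Kill

/-!
# Tukey-top ultrafilters and the principle diamond-minus: the construction under CH
-/

namespace Pool.Agent.H282R3.TT

open Set Filter

/-- If countable chains have upper bounds, then `ℵ₁` many dense sets can be met by a chain. -/
theorem exists_generic {P : Type} [Preorder P]
    (hchain : ∀ G : Set P, G.Countable → IsChain (· ≤ ·) G → ∃ q, ∀ p ∈ G, p ≤ q)
    {ι : Type} (hι : Cardinal.mk ι ≤ Cardinal.aleph 1) (D : ι → Set P)
    (hD : ∀ i p, ∃ q, p ≤ q ∧ q ∈ D i) :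
    ∃ G : Set P, IsChain (· ≤ ·) G ∧ ∀ i, ∃ p ∈ G, p ∈ D i := by
  classical
  rcases isEmpty_or_nonempty ι with h | h
  · exact ⟨∅, fun _ h => absurd h (notMem_empty _), fun i => (h.false i).elim⟩
  obtain ⟨p₀, -⟩ := hchain ∅ countable_empty (fun _ h => absurd h (notMem_empty _))
  have hOm : Cardinal.mk (Cardinal.aleph.{0} 1).ord.ToType = Cardinal.aleph 1 := by simp
  rw [← hOm] at hι
  obtain ⟨j⟩ := hι
  let s := Function.invFun j
  have hs : Function.Surjective s := Function.invFun_surjective j.injective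
  let F : (o : (Cardinal.aleph.{0} 1).ord.ToType) →
      ((y : (Cardinal.aleph.{0} 1).ord.ToType) → y < o → P) → P := fun o h =>
    if hc : ∃ q, q ∈ D (s o) ∧ ∀ y (hy : y < o), h y hy ≤ q then hc.choose else p₀
  let g : (Cardinal.aleph.{0} 1).ord.ToType → P :=
    WellFounded.fix (C := fun _ => P) wellFounded_lt F
  have hg : ∀ o, g o = F o (fun y _ => g y) := fun o => WellFounded.fix_eq _ F o
  have key : ∀ o, g o ∈ D (s o) ∧ ∀ y < o, g y ≤ g o := by
    intro o
    induction o using WellFoundedLT.induction with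
    | ind o ih =>
      have hcount : (g '' Iio o).Countable := by
        refine Countable.image ?_ _
        have h1 : Cardinal.mk (Iio o) < Cardinal.aleph 1 := Cardinal.mk_Iio_toType_ord_lt o
        rw [← Cardinal.le_aleph0_iff_set_countable]
        exact Order.lt_succ_iff.1 (h1.trans_le Cardinal.succ_aleph0.ge)
      have hch : IsChain (· ≤ ·) (g '' Iio o) := by
        rintro _ ⟨y, hy, rfl⟩ _ ⟨z, hz, rfl⟩ _
        rcases lt_trichotomy y z with h | h | h
        · exact Or.inl ((ih z hz).2 y h)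
        · exact Or.inl (by rw [h])
        · exact Or.inr ((ih y hy).2 z h)
      obtain ⟨q, hq⟩ := hchain _ hcount hch
      obtain ⟨r, hqr, hr⟩ := hD (s o) q
      have hc : ∃ q, q ∈ D (s o) ∧ ∀ y (hy : y < o), g y ≤ q :=
        ⟨r, hr, fun y hy => (hq _ ⟨y, hy, rfl⟩).trans hqr⟩
      have h2 : g o = hc.choose := by
        rw [hg o]
        exact dif_pos hc
      rw [h2]
      exact hc.choose_spec
  refine ⟨range g, ?_, ?_⟩
  · rintro _ ⟨y, rfl⟩ _ ⟨z, rfl⟩ _
    rcases lt_trichotomy y z with h | h | h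
    · exact Or.inl ((key z).2 y h)
    · exact Or.inl (by rw [h])
    · exact Or.inr ((key y).2 z h)
  · intro i
    obtain ⟨o, rfl⟩ := hs i
    exact ⟨g o, ⟨o, rfl⟩, (key o).1⟩

/-- The index set of the requirements. -/
abbrev Task : Type := Set ℕ ⊕ ((ℕ → ℕ × ℕ × Finset (Finset ℕ)) ⊕ (ℕ → Set ℕ))

theorem mk_task : Cardinal.mk Task ≤ Cardinal.continuum := by
  have h1 : Cardinal.mk (Set ℕ) = Cardinal.continuum := by
    rw [Cardinal.mk_set, Cardinal.mk_nat, Cardinal.two_power_aleph0]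
  have h2 : Cardinal.mk (ℕ → ℕ × ℕ × Finset (Finset ℕ)) ≤ Cardinal.continuum := by
    rw [← Cardinal.power_def, Cardinal.mk_nat, ← Cardinal.aleph0_power_aleph0]
    exact Cardinal.power_le_power_right Cardinal.mk_le_aleph0
  have h3 : Cardinal.mk (ℕ → Set ℕ) = Cardinal.continuum := by
    rw [← Cardinal.power_def, Cardinal.mk_nat, h1, Cardinal.continuum_power_aleph0]
  rw [Cardinal.mk_sum, Cardinal.mk_sum, Cardinal.lift_id, Cardinal.lift_id, Cardinal.lift_id,
    Cardinal.lift_id, h1, h3]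
  calc Cardinal.continuum + (Cardinal.mk (ℕ → ℕ × ℕ × Finset (Finset ℕ)) + Cardinal.continuum)
      ≤ Cardinal.continuum + (Cardinal.continuum + Cardinal.continuum) := by gcongr
    _ = Cardinal.continuum := by simp

theorem exists_code (m : ℕ) (S : Set (Set ℕ)) (hS : ∀ A ∈ S, A ⊆ seg m) :
    ∃ B : Finset (Finset ℕ), (fun b : Finset ℕ => (↑b : Set ℕ)) '' (↑B : Set (Finset ℕ)) = S := by
  classical
  refine ⟨(Finset.range m).powerset.filter (fun b => (↑b : Set ℕ) ∈ S), ?_⟩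
  ext A
  constructor
  · rintro ⟨b, hb, rfl⟩
    rw [Finset.mem_coe, Finset.mem_filter] at hb
    exact hb.2
  · intro hA
    have hfin : A.Finite := (finite_lt_nat m).subset (hS A hA)
    refine ⟨hfin.toFinset, ?_, by simp⟩
    rw [Finset.mem_coe, Finset.mem_filter, Finset.mem_powerset]
    refine ⟨?_, by simpa using hA⟩
    intro y hy
    rw [hfin.mem_toFinset] at hy
    exact Finset.mem_range.2 (hS A hA hy)

/-- Under CH there is a Tukey-top ultrafilter for which diamond-minus fails. -/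
theorem exists_tukeyTop (hCH : Cardinal.aleph 1 = Cardinal.continuum.{0}) :
    ∃ U : Ultrafilter ℕ, TukeyTop U ∧ ¬ DiamondMinus U := by
  classical
  let D : Task → Set Cond := fun i => match i with
    | Sum.inl S => {q | S ∈ q.Y ∨ Sᶜ ∈ q.Y}
    | Sum.inr (Sum.inl h) => {r | ∀ U : Ultrafilter ℕ, (∀ A ∈ r.Y, A ∈ U) → ∀ T,
        ¬ Witness U (fun n => (h n).1) (fun n => (h n).2.1)
          (fun n => (fun b : Finset ℕ => (↑b : Set ℕ)) '' (↑(h n).2.2 : Set (Finset ℕ))) T}
    | Sum.inr (Sum.inr d) => {q | ∃ A ∈ q.C, ∀ n, d n ≠ A}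
  have hD : ∀ i p, ∃ q, p ≤ q ∧ q ∈ D i := by
    rintro (S | h | d) p
    · exact p.decide S
    · exact p.kill _ _ _
    · exact p.addC d
  obtain ⟨G, hG, hGD⟩ := exists_generic Cond.chain (hCH ▸ mk_task) D hD
  have hdir : ∀ p ∈ G, ∀ q ∈ G, ∃ r ∈ G, p ≤ r ∧ q ≤ r := by
    intro p hp q hq
    rcases hG.total hp hq with h | h
    · exact ⟨q, hq, h, le_rfl⟩
    · exact ⟨p, hp, le_rfl, h⟩
  have hinf : ∀ p ∈ G, ∀ A ∈ p.Y, A.Infinite := by
    intro p _ A hA
    obtain ⟨E, _, h⟩ := p.full A hA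
    exact h.infinite
  let F : Filter ℕ :=
    { sets := {S | ∃ p ∈ G, S ∈ p.Y}
      univ_sets := by
        obtain ⟨p, hp, _⟩ := hGD (Sum.inl ∅)
        exact ⟨p, hp, p.univ_mem⟩
      sets_of_superset := by
        rintro S S' ⟨p, hp, hS⟩ hSS'
        obtain ⟨q, hq, h | h⟩ := hGD (Sum.inl S')
        · exact ⟨q, hq, h⟩
        · exfalso
          obtain ⟨r, hr, hpr, hqr⟩ := hdir p hp q hq
          have h1 := hinf r hr _ (r.inter_mem S (hpr.2.1 hS) S'ᶜ (hqr.2.1 h))
          have h2 : S ∩ S'ᶜ = ∅ := by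
            rw [← sdiff_eq, sdiff_eq_empty]
            exact hSS'
          rw [h2] at h1
          exact h1 finite_empty
      inter_sets := by
        rintro S S' ⟨p, hp, hS⟩ ⟨q, hq, hS'⟩
        obtain ⟨r, hr, hpr, hqr⟩ := hdir p hp q hq
        exact ⟨r, hr, r.inter_mem S (hpr.2.1 hS) S' (hqr.2.1 hS')⟩ }
  have hmemF : ∀ S, S ∈ F ↔ ∃ p ∈ G, S ∈ p.Y := fun S => Iff.rfl
  let U : Ultrafilter ℕ := Ultrafilter.ofComplNotMemIff F (by
    intro S
    constructor
    · intro h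
      obtain ⟨q, hq, h1 | h1⟩ := hGD (Sum.inl S)
      · exact ⟨q, hq, h1⟩
      · exact absurd ⟨q, hq, h1⟩ h
    · intro h h'
      have h1 := F.inter_sets h h'
      obtain ⟨p, hp, h2⟩ := h1
      have h3 := hinf p hp _ h2
      rw [inter_compl_self] at h3
      exact h3 finite_empty)
  have hU : ∀ S, S ∈ U ↔ ∃ p ∈ G, S ∈ p.Y := fun S => Iff.rfl
  have hUp : ∀ p ∈ G, ∀ A ∈ p.Y, A ∈ U := fun p hp A hA => (hU A).2 ⟨p, hp, hA⟩
  refine ⟨U, ?_, ?_⟩
  · -- Tukey-top
    let C : Set (Set ℕ) := {A | ∃ p ∈ G, A ∈ p.C}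
    have hC : ¬ C.Countable := by
      intro hc
      have hne : C.Nonempty := by
        obtain ⟨p, hp, A, hA, _⟩ := hGD (Sum.inr (Sum.inr fun _ => ∅))
        exact ⟨A, p, hp, hA⟩
      obtain ⟨d, hd⟩ := hc.exists_eq_range hne
      obtain ⟨p, hp, A, hA, h⟩ := hGD (Sum.inr (Sum.inr d))
      have h1 : A ∈ C := ⟨p, hp, hA⟩
      rw [hd] at h1
      obtain ⟨n, hn⟩ := h1
      exact h n hn
    refine ⟨C, fun A => (A.1)ᶜ, ?_, ?_, ?_⟩
    · apply le_antisymm
      · have h1 : Cardinal.mk (Set ℕ) = Cardinal.continuum := by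
          rw [Cardinal.mk_set, Cardinal.mk_nat, Cardinal.two_power_aleph0]
        rw [← h1]
        exact Cardinal.mk_set_le C
      · rw [← hCH, ← Cardinal.succ_aleph0, Order.succ_le_iff]
        by_contra hlt
        exact hC (Cardinal.le_aleph0_iff_set_countable.1 (not_lt.1 hlt))
    · rintro ⟨A, p, hp, hA⟩
      exact (hU _).2 ⟨p, hp, p.compl A hA⟩
    · intro I hI _ hmem
      obtain ⟨p, hp, h1⟩ := (hU _).1 hmem
      obtain ⟨E, hE, h2⟩ := p.full _ h1
      have h3 : (Subtype.val '' I).Infinite := hI.image Subtype.val_injective.injOn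
      obtain ⟨_, ⟨⟨A, q, hq, hA⟩, hAI, rfl⟩, hAE⟩ := (h3.sdiff hE).nonempty
      obtain ⟨r, hr, hpr, hqr⟩ := hdir p hp q hq
      have h4 := hpr.2.2 _ h1 E h2 {A} (by
        rw [Finset.coe_singleton, singleton_subset_iff]
        exact ⟨hqr.1 hA, hAE⟩)
      refine h4 ?_
      convert finite_empty
      rw [eq_empty_iff_forall_notMem]
      rintro y ⟨hy, hy'⟩
      simp only [Finset.mem_singleton, iInter_iInter_eq_left] at hy'
      have h5 := mem_iInter₂.1 hy ⟨A, q, hq, hA⟩ hAI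
      exact h5 hy'
  · -- diamond-minus fails
    rintro ⟨f, p, a, T, hW⟩
    choose B hB using fun n => exists_code (f n) (a n) (hW.2.1 n).1
    obtain ⟨q, hq, h⟩ := hGD (Sum.inr (Sum.inl fun n => (f n, p n, B n)))
    refine h U (hUp q hq) T ?_
    simp only [hB]
    exact hW

end Pool.Agent.H282R3.TT
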