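import Pool.Agent.H282R3.TT.Basic

/-!
# Tukey-top ultrafilters and the principle diamond-minus: killing a possible witness
-/

namespace Pool.Agent.H282R3.TT

open Set Filter

/-- Restriction of all the members of a family to `m`. -/
def rest (m : ℕ) (a : Set (Set ℕ)) : Set (Set ℕ) := (fun X => X ∩ seg m) '' a

theorem exists_injOn (s : Finset (Set ℕ)) :
    ∃ m₀, ∀ m ≥ m₀, Set.InjOn (fun X : Set ℕ => X ∩ seg m) (↑s : Set (Set ℕ)) := by
  have h : ∀ᶠ m in (atTop : Filter ℕ), ∀ X ∈ s, ∀ Y ∈ s, X ∩ seg m = Y ∩ seg m → X = Y := by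
    refine (Finset.eventually_all s).2 fun X _ => (Finset.eventually_all s).2 fun Y _ => ?_
    by_cases hXY : X = Y
    · exact Eventually.of_forall fun m _ => hXY
    · have : ∃ x, ¬ (x ∈ X ↔ x ∈ Y) := by
        by_contra hc
        push Not at hc
        exact hXY (Set.ext hc)
      obtain ⟨x, hx⟩ := this
      filter_upwards [eventually_gt_atTop x] with m hm h
      exfalso
      apply hx
      have h1 : x ∈ X ∩ seg m ↔ x ∈ Y ∩ seg m := by rw [h]
      have h2 : x ∈ seg m := hm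
      simpa [h2] using h1
  obtain ⟨m₀, hm₀⟩ := eventually_atTop.1 h
  exact ⟨m₀, fun m hm X hX Y hY h => hm₀ m hm X hX Y hY h⟩

theorem card_le_of {s : Finset (Set ℕ)} {k m : ℕ} {V : Set (Set ℕ)} (hV : V.encard ≤ k)
    (hinj : Set.InjOn (fun X : Set ℕ => X ∩ seg m) (↑s : Set (Set ℕ)))
    (h : ∀ X ∈ s, X ∩ seg m ∈ V) : s.card ≤ k := by
  have h1 : ((fun X : Set ℕ => X ∩ seg m) '' (↑s : Set (Set ℕ))).encard ≤ V.encard := by
    refine encard_le_encard ?_
    rintro _ ⟨X, hX, rfl⟩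
    exact h X hX
  rw [hinj.encard_image, encard_coe_eq_coe_finsetCard] at h1
  exact_mod_cast h1.trans hV

theorem infinite_of_mk {T : Set (Set ℕ)} (hT : Cardinal.mk T = Cardinal.continuum) :
    T.Infinite := by
  rw [← Set.infinite_coe_iff, Cardinal.infinite_iff, hT]
  exact Cardinal.aleph0_le_continuum

theorem not_countable_of_mk {T : Set (Set ℕ)} (hT : Cardinal.mk T = Cardinal.continuum) :
    ¬ T.Countable := by
  intro h
  rw [← Cardinal.le_aleph0_iff_set_countable, hT] at h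
  exact absurd h (not_le.2 Cardinal.aleph0_lt_continuum)

theorem not_witness_of_const (U : Ultrafilter ℕ) (f p : ℕ → ℕ) (a : ℕ → Set (Set ℕ))
    (T : Set (Set ℕ)) {k : ℕ} (hk : p ⁻¹' {k} ∈ U) : ¬ Witness U f p a T := by
  rintro ⟨hT, ha, h2, h3⟩
  obtain ⟨s, hs, hcard⟩ := (infinite_of_mk hT).exists_subset_card_eq (k + 1)
  obtain ⟨m₀, hm₀⟩ := exists_injOn s
  have h4 : ∀ᶠ n in (U : Filter ℕ), ∀ X ∈ s, X ∩ seg (f n) ∈ a n :=
    (Finset.eventually_all s).2 fun X hX => h2 X (hs hX)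
  have h5 : ∀ᶠ n in (U : Filter ℕ), m₀ < f n := h3 (fun _ => m₀)
  have h6 : ∀ᶠ n in (U : Filter ℕ), p n = k := hk
  obtain ⟨n, h7, h8, h9⟩ := (h4.and (h5.and h6)).exists
  have := card_le_of (k := k) (by rw [← h9]; exact (ha n).2) (hm₀ (f n) h8.le) h7
  omega

/-- The ultrafilter attached to a set `G` for which `E` works. -/
theorem exists_ultra {C E : Set (Set ℕ)} {G : Set ℕ} (h : Works C E G) :
    ∃ W : Ultrafilter ℕ, (∀ t : Finset (Set ℕ), (↑t : Set (Set ℕ)) ⊆ C \ E →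
      (G ∩ ⋂ c ∈ t, c) ∈ W) ∧ ∀ n, {x | n < x} ∈ W := by
  classical
  let F : Filter ℕ :=
    { sets := {S | ∃ t : Finset (Set ℕ), (↑t : Set (Set ℕ)) ⊆ C \ E ∧
        ((G ∩ ⋂ c ∈ t, c) \ S).Finite}
      univ_sets := ⟨∅, by simp, by simp⟩
      sets_of_superset := by
        rintro S S' ⟨t, ht, hS⟩ hSS'
        exact ⟨t, ht, hS.subset (sdiff_subset_sdiff_right hSS')⟩
      inter_sets := by
        rintro S S' ⟨t, ht, hS⟩ ⟨t', ht', hS'⟩
        refine ⟨t ∪ t', by rw [Finset.coe_union]; exact union_subset ht ht',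
          (hS.union hS').subset ?_⟩
        rintro x ⟨⟨hx, hx'⟩, hx''⟩
        simp only [Finset.mem_union, mem_iInter] at hx'
        by_cases hxS : x ∈ S
        · refine Or.inr ⟨⟨hx, ?_⟩, fun h => hx'' ⟨hxS, h⟩⟩
          simp only [mem_iInter]
          exact fun c hc => hx' c (Or.inr hc)
        · refine Or.inl ⟨⟨hx, ?_⟩, hxS⟩
          simp only [mem_iInter]
          exact fun c hc => hx' c (Or.inl hc) }
  have hF : F.NeBot := by
    refine ⟨fun hbot => ?_⟩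
    have h1 : (∅ : Set ℕ) ∈ F := by rw [hbot]; exact mem_bot
    obtain ⟨t, ht, h2⟩ := h1
    rw [sdiff_empty] at h2
    exact h t ht h2
  refine ⟨Ultrafilter.of F, fun t ht => ?_, fun n => ?_⟩
  · refine Ultrafilter.of_le F ?_
    exact ⟨t, ht, by simp⟩
  · refine Ultrafilter.of_le F ?_
    refine ⟨∅, by simp, (finite_le_nat n).subset ?_⟩
    rintro x ⟨_, hx⟩
    simpa using hx

theorem exists_limit (W : Ultrafilter ℕ) (a : ℕ → Set (Set ℕ)) (m : ℕ) :
    ∃ V : Set (Set ℕ), {x | rest m (a x) = V} ∈ W := by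
  have hfin : (𝒫 (𝒫 (seg m))).Finite := ((finite_lt_nat m).powerset).powerset
  have h : (⋃ V ∈ 𝒫 (𝒫 (seg m)), {x | rest m (a x) = V}) ∈ W := by
    have : (⋃ V ∈ 𝒫 (𝒫 (seg m)), {x | rest m (a x) = V}) = univ := by
      rw [eq_univ_iff_forall]
      intro x
      refine mem_iUnion₂.2 ⟨rest m (a x), ?_, rfl⟩
      rintro _ ⟨X, _, rfl⟩
      exact inter_subset_right
    rw [this]
    exact univ_mem
  obtain ⟨V, _, hV⟩ := (Ultrafilter.finite_biUnion_mem_iff hfin).1 h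
  exact ⟨V, hV⟩

theorem Cond.full_ge (q : Cond) (p : ℕ → ℕ)
    (h : ∀ k, ∃ A ∈ q.Y, ¬ Full q.C (A ∩ p ⁻¹' {k})) (l : ℕ) :
    ∀ A ∈ q.Y, Full q.C (A ∩ {x | l ≤ p x}) := by
  induction l with
  | zero =>
    intro A hA
    simpa using q.full A hA
  | succ l ih =>
    intro A hA
    obtain ⟨B, hB, hB'⟩ := h l
    obtain ⟨E, hE, h1⟩ := ih _ (q.inter_mem A hA B hB)
    have h2 : ¬ Full q.C (A ∩ B ∩ {x | l ≤ p x} ∩ p ⁻¹' {l}) := by
      refine fun h3 => hB' (h3.mono ?_)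
      rintro x ⟨⟨⟨_, hx⟩, _⟩, hx'⟩
      exact ⟨hx, hx'⟩
    refine ⟨E, hE, (h1.remove hE h2).mono ?_⟩
    rintro x ⟨⟨⟨hx, _⟩, hx'⟩, hx''⟩
    refine ⟨hx, ?_⟩
    simp only [mem_ofPred_eq, mem_compl_iff, mem_preimage, mem_singleton_iff] at hx' hx'' ⊢
    omega

theorem Cond.kill (q : Cond) (f p : ℕ → ℕ) (a : ℕ → Set (Set ℕ)) :
    ∃ r, q ≤ r ∧ ∀ U : Ultrafilter ℕ, (∀ A ∈ r.Y, A ∈ U) → ∀ T, ¬ Witness U f p a T := by
  classical
  by_cases ha : ∀ n, (∀ A ∈ a n, A ⊆ seg (f n)) ∧ (a n).encard ≤ p n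
  swap
  · exact ⟨q, le_rfl, fun U _ T hT => ha hT.2.1⟩
  by_cases h : ∃ k, ∀ A ∈ q.Y, Full q.C (A ∩ p ⁻¹' {k})
  · obtain ⟨k, hk⟩ := h
    obtain ⟨r, hr, h1⟩ := q.add _ hk
    exact ⟨r, hr, fun U hU T => not_witness_of_const U f p a T (hU _ h1)⟩
  push Not at h
  have hfull := q.full_ge p h
  obtain ⟨e, he⟩ := q.hY.exists_eq_range ⟨univ, q.univ_mem⟩
  have heY : ∀ l, e l ∈ q.Y := fun l => by rw [he]; exact ⟨l, rfl⟩
  obtain ⟨τ, hτ⟩ := (countable_finsets q.hC).exists_eq_range ⟨∅, by simp⟩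
  have hτC : ∀ j, (↑(τ j) : Set (Set ℕ)) ⊆ q.C := fun j => by
    have : τ j ∈ {t : Finset (Set ℕ) | (↑t : Set (Set ℕ)) ⊆ q.C} := by rw [hτ]; exact ⟨j, rfl⟩
    exact this
  choose E hE hW using fun l => hfull l (e l) (heY l)
  choose W hW1 hW2 using fun l => exists_ultra (hW l)
  choose V hV using fun l m => exists_limit (W l) a m
  -- the sequence of the points
  have hgood : ∀ n : ℕ, ∃ x : ℕ,
      (x ∈ (e (n.unpair.1.unpair.1) ∩ {x | n.unpair.1.unpair.1 ≤ p x}) ∩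
        ⋂ c ∈ (τ (n.unpair.1.unpair.2)).filter (fun c => c ∉ E (n.unpair.1.unpair.1)), c) ∧
      n < x ∧ (∀ m ≤ n, rest m (a x) = V (n.unpair.1.unpair.1) m) ∧
      ((¬ ∃ k, p ⁻¹' {k} ∈ W (n.unpair.1.unpair.1)) → n ≤ p x) := by
    intro n
    generalize n.unpair.1.unpair.1 = l
    generalize n.unpair.1.unpair.2 = j
    have h1 : ∀ᶠ x in (W l : Filter ℕ), x ∈ (e l ∩ {x | l ≤ p x}) ∩
        ⋂ c ∈ (τ j).filter (fun c => c ∉ E l), c := by
      refine hW1 l _ ?_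
      intro c hc
      rw [Finset.mem_coe, Finset.mem_filter] at hc
      exact ⟨hτC j hc.1, hc.2⟩
    have h2 : ∀ᶠ x in (W l : Filter ℕ), n < x := hW2 l n
    have h3 : ∀ᶠ x in (W l : Filter ℕ), ∀ m ∈ Iic n, rest m (a x) = V l m :=
      (Set.finite_Iic n).eventually_all.2 fun m _ => hV l m
    have h4 : ∀ᶠ x in (W l : Filter ℕ), (¬ ∃ k, p ⁻¹' {k} ∈ W l) → n ≤ p x := by
      by_cases hc : ∃ k, p ⁻¹' {k} ∈ W l
      · exact Eventually.of_forall fun x hx => absurd hc hx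
      · push Not at hc
        have h5 : ∀ᶠ x in (W l : Filter ℕ), ∀ k ∈ Iio n, p x ≠ k :=
          (Set.finite_Iio n).eventually_all.2 fun k _ =>
            Ultrafilter.compl_mem_iff_notMem.2 (hc k)
        filter_upwards [h5] with x hx _
        by_contra hlt
        exact hx (p x) (by simpa using hlt) rfl
    obtain ⟨x, hx1, hx2, hx3, hx4⟩ := (h1.and (h2.and (h3.and h4))).exists
    exact ⟨x, hx1, hx2, hx3, hx4⟩
  choose x hx1 hx2 hx3 hx4 using hgood
  obtain ⟨r, hr, hZ⟩ := q.add (range x) (by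
    intro A hA
    rw [he] at hA
    obtain ⟨l, rfl⟩ := hA
    refine ⟨E l, hE l, fun t ht => ?_⟩
    have h1 : t ∈ {t : Finset (Set ℕ) | (↑t : Set (Set ℕ)) ⊆ q.C} := ht.trans sdiff_subset
    rw [hτ] at h1
    obtain ⟨j, hj⟩ := h1
    have hfilt : (τ j).filter (fun c => c ∉ E l) = t := by
      rw [hj, Finset.filter_eq_self]
      exact fun c hc => (ht hc).2
    refine infinite_of_forall_exists_gt fun N => ?_
    have h2 := hx1 (Nat.pair (Nat.pair l j) N)
    have h3 := hx2 (Nat.pair (Nat.pair l j) N)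
    simp only [Nat.unpair_pair] at h2
    rw [hfilt] at h2
    refine ⟨x (Nat.pair (Nat.pair l j) N), ⟨⟨h2.1.1, ⟨_, rfl⟩⟩, h2.2⟩, ?_⟩
    exact (Nat.right_le_pair _ _).trans_lt h3)
  refine ⟨r, hr, ?_⟩
  rintro U hU T ⟨hT, -, h2, h3⟩
  -- the countable set
  let L : Set (Set ℕ) := ⋃ l ∈ {l | ∃ k, p ⁻¹' {k} ∈ W l}, {X | ∀ m, X ∩ seg m ∈ V l m}
  have hL : L.Countable := by
    refine Countable.biUnion (to_countable _) ?_
    rintro l ⟨k, hk⟩
    refine Finite.countable ?_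
    by_contra hinf
    obtain ⟨s, hs, hcard⟩ := Set.Infinite.exists_subset_card_eq hinf (k + 1)
    obtain ⟨m, hm⟩ := exists_injOn s
    have h4 : ∀ᶠ y in (W l : Filter ℕ), rest m (a y) = V l m := hV l m
    have h5 : ∀ᶠ y in (W l : Filter ℕ), p y = k := hk
    obtain ⟨y, hy1, hy2⟩ := (h4.and h5).exists
    have h6 : (V l m).encard ≤ k := by
      rw [← hy1, ← hy2]
      exact (encard_image_le _ _).trans (ha y).2
    have := card_le_of h6 (hm m le_rfl) (fun X hX => hs hX m)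
    omega
  obtain ⟨X, hXT, hXL⟩ : ∃ X ∈ T, X ∉ L := by
    by_contra hc
    push Not at hc
    exact not_countable_of_mk hT (hL.mono hc)
  have hXL' : ∀ l, ∃ m, (∃ k, p ⁻¹' {k} ∈ W l) → X ∩ seg m ∉ V l m := by
    intro l
    by_cases hl : ∃ k, p ⁻¹' {k} ∈ W l
    · have : ¬ ∀ m, X ∩ seg m ∈ V l m := fun h => hXL (mem_iUnion₂.2 ⟨l, hl, h⟩)
      push Not at this
      obtain ⟨m, hm⟩ := this
      exact ⟨m, fun _ => hm⟩
    · exact ⟨0, fun h => absurd h hl⟩
  choose M hM using hXL'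
  have hbd : ∀ k, ∃ b, ∀ n, p (x n) = k → X ∩ seg (f (x n)) ∈ a (x n) → f (x n) ≤ b := by
    intro k
    let N := k + 1 + ∑ l ∈ Finset.range (k + 1), M l
    refine ⟨N + ∑ n ∈ Finset.range N, f (x n), fun n hn hXn => ?_⟩
    by_cases hnN : n < N
    · have h4 : f (x n) ≤ ∑ n ∈ Finset.range N, f (x n) :=
        Finset.single_le_sum (f := fun n => f (x n)) (s := Finset.range N)
          (fun i _ => Nat.zero_le _) (Finset.mem_range.2 hnN)
      omega
    · by_cases hty : ∃ k, p ⁻¹' {k} ∈ W (n.unpair.1.unpair.1)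
      · have h4 : n.unpair.1.unpair.1 ≤ p (x n) := (hx1 n).1.2
        have h5 := hM _ hty
        have h6 : M (n.unpair.1.unpair.1) ≤ ∑ l ∈ Finset.range (k + 1), M l :=
          Finset.single_le_sum (f := fun l => M l) (s := Finset.range (k + 1))
            (fun i _ => Nat.zero_le _)
            (Finset.mem_range.2 (show n.unpair.1.unpair.1 < k + 1 by omega))
        have h7 := hx3 n (M (n.unpair.1.unpair.1)) (by omega)
        by_contra hlt
        apply h5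
        rw [← h7]
        refine ⟨_, hXn, ?_⟩
        simp only
        rw [inter_assoc]
        congr 1
        ext y
        simp only [seg, mem_inter_iff, mem_ofPred_eq]
        omega
      · have := hx4 n hty
        omega
  choose g hg using hbd
  have h4 : ∀ᶠ y in (U : Filter ℕ), y ∈ range x := hU _ hZ
  have h5 : ∀ᶠ y in (U : Filter ℕ), X ∩ seg (f y) ∈ a y := h2 X hXT
  have h6 : ∀ᶠ y in (U : Filter ℕ), g (p y) < f y := h3 g
  obtain ⟨_, ⟨n, rfl⟩, h7, h8⟩ := (h4.and (h5.and h6)).exists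
  exact absurd (hg _ n rfl h7) (not_le.2 h8)

end Pool.Agent.H282R3.TT
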